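import Mathlib

set_option autoImplicit false

namespace Pool.Agent.P.MP_91e65d_lc.Tr

open Set

variable {X : Type*}

/-- `Rn R n x y`: there is an `R`-walk of length at most `n` from `x` to `y`. -/
def Rn (R : X → X → Prop) : ℕ → X → X → Prop
  | 0, x, y => x = y
  | n + 1, x, y => Rn R n x y ∨ ∃ z, Rn R n x z ∧ R z y

section Rn

variable {R S : X → X → Prop}

lemma Rn.refl : ∀ (n : ℕ) (x : X), Rn R n x x
  | 0, _ => rfl
  | n + 1, x => Or.inl (Rn.refl n x)

lemma Rn.mono {m n : ℕ} {x y : X} (h : Rn R m x y) (hmn : m ≤ n) : Rn R n x y := by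
  induction hmn with
  | refl => exact h
  | step _ ih => exact Or.inl ih

lemma Rn.imp (hRS : ∀ x y, R x y → S x y) : ∀ {n : ℕ} {x y : X}, Rn R n x y → Rn S n x y
  | 0, _, _, h => h
  | _ + 1, _, _, Or.inl h => Or.inl (Rn.imp hRS h)
  | _ + 1, _, _, Or.inr ⟨z, h, h'⟩ => Or.inr ⟨z, Rn.imp hRS h, hRS _ _ h'⟩

lemma Rn.trans {m : ℕ} {x y : X} (h : Rn R m x y) :
    ∀ {n : ℕ} {z : X}, Rn R n y z → Rn R (m + n) x z
  | 0, _, h' => h' ▸ h
  | _ + 1, _, Or.inl h' => Or.inl (h.trans h')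
  | _ + 1, _, Or.inr ⟨w, h', h''⟩ => Or.inr ⟨w, h.trans h', h''⟩

lemma Rn.tail {n : ℕ} {x y z : X} (h : Rn R n x y) (h' : R y z) : Rn R (n + 1) x z :=
  Or.inr ⟨y, h, h'⟩

lemma Rn.head {n : ℕ} {x y z : X} (h' : R x y) (h : Rn R n y z) : Rn R (n + 1) x z := by
  rw [add_comm]
  exact ((Rn.refl 0 x).tail h').trans h

lemma Rn.symm (hR : ∀ x y, R x y → R y x) : ∀ {n : ℕ} {x y : X}, Rn R n x y → Rn R n y x
  | 0, _, _, h => Eq.symm h
  | _ + 1, _, _, Or.inl h => Or.inl (Rn.symm hR h)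
  | _ + 1, _, _, Or.inr ⟨_, h, h'⟩ => Rn.head (hR _ _ h') (Rn.symm hR h)

lemma rtg_iff {x y : X} : Relation.ReflTransGen R x y ↔ ∃ n, Rn R n x y := by
  constructor
  · intro h
    induction h with
    | refl => exact ⟨0, rfl⟩
    | tail _ h ih => obtain ⟨n, hn⟩ := ih; exact ⟨n + 1, hn.tail h⟩
  · rintro ⟨n, h⟩
    induction n generalizing y with
    | zero => exact h ▸ Relation.ReflTransGen.refl
    | succ n ih =>
      rcases h with h | ⟨z, h, h'⟩
      · exact ih h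
      · exact (ih h).tail h'

lemma Rn.iterate {π : X → X} (hπ : ∀ x, π x = x ∨ R x (π x)) (n : ℕ) (x : X) :
    Rn R n x (π^[n] x) := by
  induction n with
  | zero => rfl
  | succ n ih =>
    rw [Function.iterate_succ_apply']
    rcases hπ (π^[n] x) with h | h
    · rw [h]; exact Or.inl ih
    · exact ih.tail h

/-- A walk of length `n` without backtracking. -/
def NB (R : X → X → Prop) (n : ℕ) (u : ℕ → X) : Prop :=
  (∀ i < n, R (u i) (u (i + 1))) ∧ ∀ i, i + 2 ≤ n → u (i + 2) ≠ u i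

lemma NB.shift {n : ℕ} {u : ℕ → X} (h : NB R (n + 1) u) : NB R n fun i => u (i + 1) :=
  ⟨fun i hi => h.1 (i + 1) (by omega), fun i hi => h.2 (i + 1) (by omega)⟩

lemma NB.snoc {n : ℕ} {u : ℕ → X} (h : NB R n u) {z : X} (hz : R (u n) z) :
    (∃ m, n = m + 1 ∧ u m = z) ∨
      ∃ v : ℕ → X, NB R (n + 1) v ∧ v 0 = u 0 ∧ v n = u n ∧ v (n + 1) = z := by
  classical
  by_cases h0 : ∃ m, n = m + 1 ∧ u m = z
  · exact Or.inl h0
  refine Or.inr ⟨fun i => if i ≤ n then u i else z, ⟨fun i hi => ?_, fun i hi => ?_⟩,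
    by simp, by simp, by simp⟩
  · by_cases h1 : i + 1 ≤ n
    · simp only [if_pos h1, if_pos (show i ≤ n by omega)]
      exact h.1 i (by omega)
    · obtain rfl : i = n := by omega
      simpa using hz
  · by_cases h1 : i + 2 ≤ n
    · simp only [if_pos h1, if_pos (show i ≤ n by omega)]
      exact h.2 i h1
    · simp only [if_neg h1, if_pos (show i ≤ n by omega)]
      exact fun e => h0 ⟨i, by omega, e.symm⟩

lemma NB.cons {n : ℕ} {u : ℕ → X} (h : NB R (n + 1) u) {z : X} (hz : R z (u 0)) (h1 : u 1 ≠ z) :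
    ∃ v : ℕ → X, NB R (n + 2) v ∧ v 0 = z ∧ ∀ i, v (i + 1) = u i := by
  refine ⟨fun i => Nat.casesOn i z u, ⟨fun i hi => ?_, fun i hi => ?_⟩, rfl, fun _ => rfl⟩
  · cases i with
    | zero => exact hz
    | succ i => exact h.1 i (by omega)
  · cases i with
    | zero => exact h1
    | succ i => exact h.2 i (by omega)

lemma Rn.nb {n : ℕ} {x y : X} (h : Rn R n x y) :
    ∃ m ≤ n, ∃ u : ℕ → X, NB R m u ∧ u 0 = x ∧ u m = y := by
  induction n generalizing y with
  | zero => exact ⟨0, le_rfl, fun _ => x, ⟨fun i hi => by omega, fun i hi => by omega⟩, rfl, h⟩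
  | succ n ih =>
    rcases h with h | ⟨z, h, h'⟩
    · obtain ⟨m, hm, u, hu⟩ := ih h
      exact ⟨m, by omega, u, hu⟩
    · obtain ⟨m, hm, u, hu, h0, h1⟩ := ih h
      rcases hu.snoc (h1 ▸ h') with ⟨k, rfl, hk⟩ | ⟨v, hv, v0, -, v1⟩
      · exact ⟨k, by omega, u, ⟨fun i hi => hu.1 i (by omega), fun i hi => hu.2 i (by omega)⟩,
          h0, hk⟩
      · exact ⟨m + 1, by omega, v, hv, v0.trans h0, v1⟩

end Rn

section Side

variable {T : SimpleGraph X}

/-- The points reached from `v` by walks that never enter `u`. -/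
def Side (T : SimpleGraph X) (u v : X) : Set X :=
  {z | Relation.ReflTransGen (fun a b => T.Adj a b ∧ b ≠ u) v z}

lemma side_cover {u v z : X} (h : T.Reachable u z) : z ∈ Side T u v ∨ z ∈ Side T v u := by
  rw [SimpleGraph.reachable_iff_reflTransGen] at h
  induction h with
  | refl => exact Or.inr Relation.ReflTransGen.refl
  | @tail a b _ hab ih =>
    by_cases h1 : b = u
    · exact Or.inr (h1 ▸ Relation.ReflTransGen.refl)
    by_cases h2 : b = v
    · exact Or.inl (h2 ▸ Relation.ReflTransGen.refl)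
    rcases ih with ih | ih
    · exact Or.inl (ih.tail ⟨hab, h1⟩)
    · exact Or.inr (ih.tail ⟨hab, h2⟩)

lemma side_walk {u v z : X} (huv : v ≠ u) (h : z ∈ Side T u v) :
    ∃ p : T.Walk v z, u ∉ p.support := by
  induction h with
  | refl => exact ⟨SimpleGraph.Walk.nil, by simpa using huv.symm⟩
  | tail _ hab ih =>
    obtain ⟨p, hp⟩ := ih
    refine ⟨p.concat hab.1, ?_⟩
    simp only [SimpleGraph.Walk.support_concat, List.mem_append,
      List.mem_singleton, not_or]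
    exact ⟨hp, hab.2.symm⟩

lemma not_mem_side {u v : X} (huv : T.Adj u v) : u ∉ Side T u v := fun h => by
  obtain ⟨p, hp⟩ := side_walk huv.ne.symm h
  exact hp p.end_mem_support

lemma side_disj (ac : T.IsAcyclic) {u v w : X} (hu : T.Adj v u) (hw : T.Adj v w) (huw : u ≠ w) :
    Disjoint (Side T v u) (Side T v w) := by
  classical
  rw [Set.disjoint_left]
  intro z h1 h2
  obtain ⟨p, hp⟩ := side_walk hu.ne.symm h1
  obtain ⟨q, hq⟩ := side_walk hw.ne.symm h2
  have h3 : v ∉ (p.append q.reverse).support := by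
    simp only [SimpleGraph.Walk.mem_support_append_iff, SimpleGraph.Walk.support_reverse,
      List.mem_reverse, not_or]
    exact ⟨hp, hq⟩
  have h4 : (SimpleGraph.Walk.cons hu.symm (SimpleGraph.Walk.cons hw SimpleGraph.Walk.nil)).IsPath := by
    simp [SimpleGraph.Walk.isPath_def, hu.ne.symm, hw.ne, huw]
  have h5 := (ac.subsingleton_path _ _).elim (p.append q.reverse).toPath ⟨_, h4⟩
  apply h3
  apply SimpleGraph.Walk.support_toPath_subset_support
  rw [h5]
  simp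

lemma side_sub (ac : T.IsAcyclic) {u v w : X} (hu : T.Adj u v) (hw : T.Adj v w) (huw : u ≠ w) :
    Side T v w ⊆ Side T u v := by
  intro z hz
  induction hz with
  | refl => exact Relation.ReflTransGen.single ⟨hw, huw.symm⟩
  | @tail a b h0 hab ih =>
    refine ih.tail ⟨hab.1, fun e => ?_⟩
    exact Set.disjoint_left.1 (side_disj ac hu.symm hw huw) Relation.ReflTransGen.refl
      (e ▸ h0.tail hab)

lemma side_disj' (ac : T.IsAcyclic) {x y : X} (h : T.Adj x y) :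
    Disjoint (Side T x y) (Side T y x) := by
  rw [Set.disjoint_left]
  intro z h1 h2
  have : z = x ∨ ∃ w, T.Adj x w ∧ w ≠ y ∧ z ∈ Side T x w := by
    clear h1
    induction h2 with
    | refl => exact Or.inl rfl
    | @tail a b _ hab ih =>
      by_cases hb : b = x
      · exact Or.inl hb
      rcases ih with rfl | ⟨w, h1, h2, h3⟩
      · exact Or.inr ⟨b, hab.1, hab.2, Relation.ReflTransGen.refl⟩
      · exact Or.inr ⟨w, h1, h2, h3.tail ⟨hab.1, hb⟩⟩
  rcases this with rfl | ⟨w, h3, h4, h5⟩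
  · exact not_mem_side h h1
  · exact Set.disjoint_left.1 (side_disj ac h3 h h4) h5 h1

end Side

/-- A subgraph `G` of a forest `T` with finitely additive probabilities `μ x` on the components
of `T` that change by at most `ε` along the edges of `G`. -/
structure Dat (T : SimpleGraph X) (G : X → X → Prop) (μ : X → Set X → ℝ) (ε : ℝ) : Prop where
  ac : T.IsAcyclic
  sub : ∀ x y, G x y → T.Adj x y
  symm : ∀ x y, G x y → G y x
  mono : ∀ x A B, A ⊆ B → μ x A ≤ μ x B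
  add2 : ∀ x A B, Disjoint A B → μ x A + μ x B ≤ 1
  add3 : ∀ x A B C, Disjoint A B → Disjoint A C → Disjoint B C → μ x A + μ x B + μ x C ≤ 1
  cov : ∀ x A B, (∀ z, T.Reachable x z → z ∈ A ∨ z ∈ B) → 1 ≤ μ x A + μ x B
  lip : ∀ x y A, G x y → μ x A ≤ μ y A + ε
  pos : 0 ≤ ε

section Core

variable (T : SimpleGraph X) (G : X → X → Prop) (μ : X → Set X → ℝ)

/-- Directed edges: the side of `y` is heavy. -/
def Dir (x y : X) : Prop := G x y ∧ 3 / 5 < μ x (Side T x y)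

/-- Balanced edges. -/
def Bal (x y : X) : Prop := G x y ∧ ¬ Dir T G μ x y ∧ ¬ Dir T G μ y x

/-- Markers on the balanced paths. -/
def Mk (c : X → ℕ) (L : ℕ) (x : X) : Prop :=
  (∀ y, Rn (Bal T G μ) L x y → c y ≤ c x) ∧ ¬ ∃ y, Rn (Bal T G μ) L x y ∧ ∃ z, Dir T G μ y z

/-- Targets. -/
def Tg (c : X → ℕ) (L : ℕ) (x : X) : Prop := (∃ z, Dir T G μ x z) ∨ Mk T G μ c L x

variable {T G μ} {ε : ℝ}

lemma Dat.bal_symm (d : Dat T G μ ε) (x y : X) (h : Bal T G μ x y) : Bal T G μ y x :=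
  ⟨d.symm _ _ h.1, h.2.2, h.2.1⟩

lemma Dat.bal_ge (d : Dat T G μ ε) {x y : X} (h : Bal T G μ x y) :
    2 / 5 - ε ≤ μ x (Side T x y) := by
  have h1 := d.cov x _ _ fun z hz => side_cover (v := y) hz
  have h2 := d.lip x y (Side T y x) h.1
  have h3 : μ y (Side T y x) ≤ 3 / 5 := not_lt.1 fun h' => h.2.2 ⟨d.symm _ _ h.1, h'⟩
  linarith

lemma Dat.dir_unique (d : Dat T G μ ε) {x y z : X} (h : Dir T G μ x y) (h' : Dir T G μ x z) :
    y = z := by
  by_contra hne
  have := d.add2 x _ _ (side_disj d.ac (d.sub _ _ h.1) (d.sub _ _ h'.1) hne)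
  linarith [h.2, h'.2]

lemma Dat.lipn (d : Dat T G μ ε) (A : Set X) {n : ℕ} {x y : X} (h : Rn G n x y) :
    μ x A ≤ μ y A + n * ε := by
  induction n generalizing y with
  | zero => rw [show x = y from h]; simp
  | succ n ih =>
    push_cast
    rcases h with h | ⟨z, h, h'⟩
    · linarith [ih h, d.pos]
    · linarith [ih h, d.lip z y A h']

lemma Dat.nb_ge (d : Dat T G μ ε) {n : ℕ} {u : ℕ → X} (h : NB G (n + 1) u) :
    μ (u n) (Side T (u n) (u (n + 1))) ≤ μ (u 0) (Side T (u 0) (u 1)) + n * ε := by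
  induction n generalizing u with
  | zero => simp
  | succ n ih =>
    have h1 := ih h.shift
    have h2 := d.mono (u 0) _ _ (side_sub d.ac (d.sub _ _ (h.1 0 (by omega)))
      (d.sub _ _ (h.1 1 (by omega))) (h.2 0 (by omega)).symm)
    have h3 := d.lip (u 1) (u 0) (Side T (u 1) (u 2)) (d.symm _ _ (h.1 0 (by omega)))
    push_cast
    simp only [zero_add] at h1 h2
    linarith

lemma exists_tg {c : X → ℕ} {N : ℕ} (hc : ∀ x, c x ≤ N) (d : Dat T G μ ε) (L : ℕ) (x : X) :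
    ∃ n, ∃ y, Rn (Bal T G μ) n y x ∧ Tg T G μ c L y := by
  classical
  have key : ∀ k x, N ≤ c x + k → ∃ n, ∃ y, Rn (Bal T G μ) n y x ∧ Tg T G μ c L y := by
    intro k
    induction k with
    | zero =>
      intro x hx
      by_cases h : ∃ y, Rn (Bal T G μ) L x y ∧ ∃ z, Dir T G μ y z
      · obtain ⟨y, h1, h2⟩ := h
        exact ⟨L, y, h1.symm d.bal_symm, Or.inl h2⟩
      · exact ⟨0, x, rfl, Or.inr ⟨fun y _ => (hc y).trans hx, h⟩⟩
    | succ k ih =>
      intro x hx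
      by_cases h : ∃ y, Rn (Bal T G μ) L x y ∧ ∃ z, Dir T G μ y z
      · obtain ⟨y, h1, h2⟩ := h
        exact ⟨L, y, h1.symm d.bal_symm, Or.inl h2⟩
      by_cases h' : ∀ y, Rn (Bal T G μ) L x y → c y ≤ c x
      · exact ⟨0, x, rfl, Or.inr ⟨h', h⟩⟩
      push Not at h'
      obtain ⟨y, h1, h2⟩ := h'
      obtain ⟨n, z, h3, h4⟩ := ih y (by omega)
      exact ⟨n + L, z, h3.trans (h1.symm d.bal_symm), h4⟩
  exact key N x (by omega)

/-- The height function and the map `π`. -/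
structure Flow (T : SimpleGraph X) (G : X → X → Prop) (μ : X → Set X → ℝ) (c : X → ℕ) (L : ℕ)
    (h : X → ℕ) (π : X → X) : Prop where
  zero : ∀ x, h x = 0 → Tg T G μ c L x
  lip : ∀ x y, Bal T G μ x y → h y ≤ h x + 1
  step : ∀ x n, h x = n + 1 → Bal T G μ x (π x) ∧ h (π x) = n
  dir : ∀ x y, Dir T G μ x y → π x = y
  nb : ∀ x, π x = x ∨ G x (π x)

variable {c : X → ℕ} {L : ℕ} {h : X → ℕ} {π : X → X}

lemma Flow.arm (d : Dat T G μ ε) (f : Flow T G μ c L h π) (n : ℕ) :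
    ∀ p x, h x = n → Bal T G μ p x → (n ≠ 0 → π x ≠ p) → ∃ p' q, Bal T G μ p' q ∧
      Tg T G μ c L q ∧ Side T p' q ⊆ Side T p x ∧ Rn (Bal T G μ) n x q := by
  induction n with
  | zero => exact fun p x hx hp _ => ⟨p, x, hp, f.zero x hx, Subset.rfl, rfl⟩
  | succ n ih =>
    intro p x hx hp hne
    obtain ⟨h1, h2⟩ := f.step x n hx
    obtain ⟨p', q, k1, k2, k3, k4⟩ := ih x (π x) h2 h1 fun hn e => by
      obtain ⟨m, rfl⟩ := Nat.exists_eq_succ_of_ne_zero hn
      have := (f.step _ m h2).2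
      rw [e] at this
      omega
    exact ⟨p', q, k1, k2, k3.trans (side_sub d.ac (d.sub _ _ hp.1) (d.sub _ _ h1.1)
      (hne n.succ_ne_zero).symm), Rn.head h1 k4⟩

/-- Edges of `G` that are not edges of the graph of `π`. -/
def Cut (G : X → X → Prop) (π : X → X) (x y : X) : Prop := G x y ∧ π x ≠ y ∧ π y ≠ x

lemma Flow.cut_bal (f : Flow T G μ c L h π) {x y : X} (hc : Cut G π x y) : Bal T G μ x y :=
  ⟨hc.1, fun h' => hc.2.1 (f.dir _ _ h'), fun h' => hc.2.2 (f.dir _ _ h')⟩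

lemma Flow.cut_long (d : Dat T G μ ε) (f : Flow T G μ c L h π) (hL : L * ε < 1 / 5)
    (hc : ∀ x y, Rn G L x y → c x = c y → x = y) {x y : X} (hxy : Cut G π x y) :
    L ≤ h x + h y := by
  by_contra hlt
  have b := f.cut_bal hxy
  obtain ⟨p, q, k1, k2, k3, k4⟩ := f.arm d _ y x rfl (d.bal_symm _ _ b) fun _ => hxy.2.1
  obtain ⟨p', q', l1, l2, l3, l4⟩ := f.arm d _ x y rfl b fun _ => hxy.2.2
  have dj := side_disj' d.ac (d.sub _ _ hxy.1)
  have hq : Rn (Bal T G μ) L q q' :=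
    (((k4.symm d.bal_symm).tail b).trans l4).mono (by omega)
  have hq' := hq.symm d.bal_symm
  have hG : Rn G L q q' := hq.imp fun _ _ h => h.1
  rcases k2 with ⟨u, hu⟩ | k2
  · rcases l2 with ⟨v, hv⟩ | l2
    · have s1 := (side_sub d.ac (d.sub _ _ k1.1) (d.sub _ _ hu.1)
        (fun e => k1.2.2 (e ▸ hu))).trans k3
      have s2 := (side_sub d.ac (d.sub _ _ l1.1) (d.sub _ _ hv.1)
        (fun e => l1.2.2 (e ▸ hv))).trans l3
      have h1 := d.add2 q' _ _ (dj.mono s2 s1)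
      have h2 := d.lipn (Side T q u) hG
      linarith [hu.2, hv.2]
    · exact l2.2 ⟨q, hq', u, hu⟩
  · rcases l2 with ⟨v, hv⟩ | l2
    · exact k2.2 ⟨q', hq, v, hv⟩
    · have e := hc q q' hG (le_antisymm (l2.1 q hq') (k2.1 q' hq))
      exact Set.disjoint_left.1 dj (l3 Relation.ReflTransGen.refl)
        (e ▸ k3 Relation.ReflTransGen.refl)

lemma Flow.follow (d : Dat T G μ ε) (f : Flow T G μ c L h π) (n : ℕ) :
    ∀ u : ℕ → X, NB G (n + 2) u → Bal T G μ (u 0) (u 1) → π (u 1) ≠ u 0 → n + 1 ≤ h (u 1) →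
      Bal T G μ (u (n + 1)) (u (n + 2)) → (n + 3) * ε < 1 / 5 → π (u (n + 1)) = u (n + 2) := by
  have first : ∀ (n : ℕ) (u : ℕ → X), NB G (n + 2) u → Bal T G μ (u 0) (u 1) → π (u 1) ≠ u 0 →
      n + 1 ≤ h (u 1) → Bal T G μ (u (n + 1)) (u (n + 2)) → (n + 3) * ε < 1 / 5 →
      π (u 1) = u 2 := by
    intro n u hu b0 hne hh b1 hε
    by_contra hne'
    obtain ⟨m, hm⟩ := Nat.exists_eq_succ_of_ne_zero (show h (u 1) ≠ 0 by omega)
    have b2 := (f.step _ m hm).1
    have a0 := (d.sub _ _ b0.1).symm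
    have a1 := d.sub _ _ b2.1
    have a2 : T.Adj (u 1) (u 2) := d.sub _ _ (hu.1 1 (by omega))
    have h1 := d.add3 (u 1) _ _ _ (side_disj d.ac a0 a1 hne.symm)
      (side_disj d.ac a0 a2 (hu.2 0 (by omega)).symm) (side_disj d.ac a1 a2 hne')
    have h2 := d.nb_ge hu.shift
    have h3 := d.bal_ge (d.bal_symm _ _ b0)
    have h4 := d.bal_ge b2
    have h5 := d.bal_ge b1
    simp only [zero_add] at h2
    linarith
  induction n with
  | zero => exact first 0
  | succ n ih =>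
    intro u hu b0 hne hh b1 hε
    have e := first _ u hu b0 hne hh b1 hε
    obtain ⟨m, hm⟩ := Nat.exists_eq_succ_of_ne_zero (show h (u 1) ≠ 0 by omega)
    obtain ⟨b2, h2⟩ := f.step _ m hm
    rw [e] at b2 h2
    refine ih (fun i => u (i + 1)) hu.shift b2 (fun e' => ?_)
      (show n + 1 ≤ h (u 2) by omega) b1 ?_
    · obtain ⟨k, hk⟩ := Nat.exists_eq_succ_of_ne_zero (show h (u 2) ≠ 0 by omega)
      have := (f.step _ k hk).2
      simp only [zero_add] at e'
      rw [e'] at this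
      omega
    · push_cast at hε
      linarith [d.pos]

lemma Flow.cut_unique (d : Dat T G μ ε) (f : Flow T G μ c L h π) {n : ℕ} (hL : L * ε < 1 / 5)
    (hn : 2 * n + 3 ≤ L) (hc : ∀ x y, Rn G L x y → c x = c y → x = y) {a b x y : X}
    (hab : Cut G π a b) (hxy : Cut G π x y) (hax : Rn G n a x) : y = a ∨ y = b := by
  have l1 := f.cut_long d hL hc hab
  have bab := f.cut_bal hab
  have l2 := f.lip _ _ bab
  have l3 := f.lip _ _ (d.bal_symm _ _ bab)
  have bxy := f.cut_bal hxy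
  have hε : ∀ k : ℕ, k ≤ n → ((k : ℝ) + 3) * ε < 1 / 5 := fun k hk => by
    have : (k : ℝ) + 3 ≤ L := by exact_mod_cast (show k + 3 ≤ L by omega)
    nlinarith [d.pos]
  obtain ⟨m0, hm0, u, hu, u0, u1⟩ := hax.nb
  obtain ⟨m, hm, v, hv, v0, v1⟩ : ∃ m ≤ n, ∃ v : ℕ → X, NB G (m + 1) v ∧ v 0 = a ∧
      (v m = x ∧ v (m + 1) = y ∨ v m = y ∧ v (m + 1) = x) := by
    rcases hu.snoc (u1 ▸ hxy.1) with ⟨k, rfl, hk⟩ | ⟨v, hv, v0, v1, v2⟩
    · exact ⟨k, by omega, u, hu, u0, Or.inr ⟨hk, u1⟩⟩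
    · exact ⟨m0, hm0, v, hv, v0.trans u0, Or.inl ⟨v1.trans u1, v2⟩⟩
  have bv : Bal T G μ (v m) (v (m + 1)) := by
    rcases v1 with ⟨e1, e2⟩ | ⟨e1, e2⟩ <;> rw [e1, e2]
    exacts [bxy, d.bal_symm _ _ bxy]
  have nv : π (v m) ≠ v (m + 1) := by
    rcases v1 with ⟨e1, e2⟩ | ⟨e1, e2⟩ <;> rw [e1, e2]
    exacts [hxy.2.1, hxy.2.2]
  by_cases h1 : v 1 = b
  · cases m with
    | zero =>
      rcases v1 with ⟨-, e2⟩ | ⟨e1, -⟩
      · exact Or.inr (e2.symm.trans h1)
      · exact Or.inl (e1.symm.trans v0)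
    | succ m =>
      exact absurd (f.follow d m v hv (by rw [v0, h1]; exact bab) (by rw [v0, h1]; exact hab.2.2)
        (by rw [h1]; omega) bv (hε m (by omega))) nv
  · obtain ⟨w, hw, w0, w1⟩ := hv.cons (v0 ▸ d.symm _ _ hab.1) h1
    have := f.follow d m w hw (by rw [w0, w1, v0]; exact d.bal_symm _ _ bab)
      (by rw [w0, w1, v0]; exact hab.2.1) (by rw [w1, v0]; omega) (by rw [w1, w1]; exact bv)
      (hε m hm)
    rw [w1, w1] at this
    exact absurd this nv

/-- The forward orbits of `y` and `w` meet within `n` steps. -/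
def Meet (π : X → X) (n : ℕ) (y w : X) : Prop := ∃ s ≤ n, ∃ t ≤ n, π^[s] y = π^[t] w

lemma Meet.step {n : ℕ} {y y' w : X} (hm : Meet π n y w) (e : π y = y' ∨ π y' = y) :
    Meet π (n + 1) y' w := by
  obtain ⟨s, hs, t, ht, hst⟩ := hm
  rcases e with e | e
  · cases s with
    | zero =>
      refine ⟨0, by omega, t + 1, by omega, ?_⟩
      rw [Function.iterate_succ_apply', ← hst]
      exact e.symm
    | succ s => exact ⟨s, by omega, t, by omega, by rw [← hst, Function.iterate_succ_apply, e]⟩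
  · exact ⟨s + 1, by omega, t, by omega, by rw [Function.iterate_succ_apply, e, hst]⟩

lemma Flow.roots (d : Dat T G μ ε) (f : Flow T G μ c L h π) {r : ℕ} (hL : L * ε < 1 / 5)
    (hr : 4 * r + 3 ≤ L) (hc : ∀ x y, Rn G L x y → c x = c y → x = y) (x : X) :
    ∃ a b, ∀ y, Rn G r x y → Meet π r y x ∨ Meet π r y a ∨ Meet π r y b := by
  obtain ⟨a, b, hab⟩ : ∃ a b, ∀ y z, Rn G r x y → Cut G π y z → z = a ∨ z = b := by
    by_cases h0 : ∃ a b, Rn G r x a ∧ Cut G π a b
    · obtain ⟨a, b, h1, h2⟩ := h0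
      exact ⟨a, b, fun y z hy hz => f.cut_unique d hL (n := r + r) (by omega) hc h2 hz
        ((h1.symm d.symm).trans hy)⟩
    · exact ⟨x, x, fun y z hy hz => absurd ⟨y, z, hy, hz⟩ h0⟩
  refine ⟨a, b, ?_⟩
  have up : ∀ {n : ℕ} {y w : X}, Meet π n y w → Meet π (n + 1) y w :=
    fun ⟨s, hs, t, ht, e⟩ => ⟨s, by omega, t, by omega, e⟩
  have key : ∀ n ≤ r, ∀ y, Rn G n x y → Meet π n y x ∨ Meet π n y a ∨ Meet π n y b := by
    intro n
    induction n with
    | zero => exact fun _ y hy => Or.inl ⟨0, le_rfl, 0, le_rfl, Eq.symm hy⟩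
    | succ n ih =>
      rintro hn y (hy | ⟨z, hz, hzy⟩)
      · exact (ih (by omega) y hy).imp up (Or.imp up up)
      by_cases e : π z = y ∨ π y = z
      · exact (ih (by omega) z hz).imp (·.step e) (Or.imp (·.step e) (·.step e))
      · push Not at e
        rcases hab z y (hz.mono (by omega)) ⟨hzy, e⟩ with rfl | rfl
        · exact Or.inr (Or.inl ⟨0, by omega, 0, by omega, rfl⟩)
        · exact Or.inr (Or.inr ⟨0, by omega, 0, by omega, rfl⟩)
  exact key r le_rfl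

end Core

end Pool.Agent.P.MP_91e65d_lc.Tr
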