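import Mathlib

set_option autoImplicit false

namespace Pool.Agent.P.MP_91e65d_lc.Tr

variable {X : Type*} [MeasurableSpace X]

/-- `E` is the union of an increasing sequence of Borel equivalence relations with finite
classes. -/
def Hyperfinite (E : Setoid X) : Prop :=
  ∃ F : ℕ → Setoid X, (∀ n, MeasurableSet {p : X × X | F n p.1 p.2}) ∧ Monotone F ∧
    (∀ n x, {y | F n x y}.Finite) ∧ ∀ x y, E x y ↔ ∃ n, F n x y

/-- `E` is the connectedness relation of an acyclic Borel graph. -/
def Treeable (E : Setoid X) : Prop :=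
  ∃ T : SimpleGraph X, MeasurableSet {p : X × X | T.Adj p.1 p.2} ∧ T.IsAcyclic ∧
    ∀ x y, E x y ↔ T.Reachable x y

/-- There are Borel `f n : E → [0, ∞)` whose sections are probability vectors on the classes, and
a null sequence `δ`, such that for all equivalent `x, y` the `ℓ¹` distance of the sections at `x`
and `y` is at most `δ n` for all large `n`. -/
def AmenableWithRate (E : Setoid X) : Prop :=
  ∃ (f : ℕ → {p : X × X // E p.1 p.2} → ℝ) (δ : ℕ → ℝ),
    (∀ n, Measurable (f n)) ∧ (∀ n p, 0 ≤ f n p) ∧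
    (∀ n x, HasSum (fun z : {z // E x z} => f n ⟨(x, z.1), z.2⟩) 1) ∧
    Filter.Tendsto δ Filter.atTop (nhds 0) ∧
    ∀ (x y : X) (h : E x y), ∀ᶠ n in Filter.atTop, ∑' z : {z // E x z},
      |f n ⟨(x, z.1), z.2⟩ - f n ⟨(y, z.1), E.trans (E.symm h) z.2⟩| ≤ δ n

end Pool.Agent.P.MP_91e65d_lc.Tr
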