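import Pool.Agent.P.MP_91e65d_lc.Tr.Scale
import Pool.Agent.P.MP_91e65d_lc.Tr.Defs
import Pool.Agent.P.MP_91e65d_lc.Glue

set_option autoImplicit false

namespace Pool.Agent.P.MP_91e65d_lc.Tr

open Set Filter Topology

variable {X : Type*} [MeasurableSpace X] {E : Setoid X}

/-- Composition of the scales and the finite index argument. -/
theorem hyperfinite_of_scales [MeasurableEq X] {e : ℕ → X → X} (he : ∀ i, Measurable (e i))
    (he0 : ∀ x, e 0 x = x) (he1 : ∀ i x, E x (e i x)) (he2 : ∀ x y, E x y → ∃ i, e i x = y)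
    {G : ℕ → X → X → Prop} (g1 : ∀ i j, i ≤ j → ∀ x y, G i x y → G j x y)
    (g2 : ∀ j x y, G j x y → G j y x) (g3 : ∀ j, Enum (G j)) (g4 : ∀ j x y, G j x y → E x y)
    (g5 : ∀ x y, E x y → ∃ j, Rn (G j) j x y) {k : ℕ}
    (H : ∀ j r, ∃ (φ : X → X) (D : ℕ), Measurable φ ∧ (∀ x, Rn (G j) D x (φ x)) ∧
      ∀ x, ∃ s : Finset X, s.card ≤ k ∧ ∀ y, Rn (G j) r x y → φ y ∈ s) : Hyperfinite E := by
  classical
  choose φ D φm φD φs using H
  let R : ℕ → ℕ := fun n => Nat.rec 0 (fun j r => r + D j (j + r)) n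
  let ψ : ℕ → X → X := fun n => Nat.rec id (fun j p => φ j (j + R j) ∘ p) n
  have ψs : ∀ j x, ψ (j + 1) x = φ j (j + R j) (ψ j x) := fun _ _ => rfl
  have ψm : ∀ j, Measurable (ψ j) := fun j => by
    induction j with
    | zero => exact measurable_id
    | succ j ih => exact (φm _ _).comp ih
  have ψR : ∀ j x, Rn (G j) (R j) x (ψ j x) := fun j x => by
    induction j with
    | zero => rfl
    | succ j ih => exact (ih.trans (φD j _ _)).imp (g1 _ _ j.le_succ)
  have RE : ∀ j n x y, Rn (G j) n x y → E x y := fun j n x y h => by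
    have := rtg_iff.2 ⟨n, h⟩
    clear h
    induction this with
    | refl => exact E.refl _
    | tail _ h ih => exact E.trans ih (g4 _ _ _ h)
  have coh : ∀ j x y, ψ j x = ψ j y → ∀ m ≥ j, ψ m x = ψ m y := fun j x y h m hm => by
    induction hm with
    | refl => exact h
    | step _ ih => rw [ψs, ψs, ih]
  have idx : ∀ x, ∃ N, ∀ i, ∃ i', i' ≤ N ∧ ∃ j, ψ j (e i x) = ψ j (e i' x) := fun x => by
    by_contra hn
    push Not at hn
    have big : ∀ m, ∃ S : Finset ℕ, S.card = m ∧
        ∀ j, InjOn (fun i => ψ j (e i x)) S := fun m => by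
      induction m with
      | zero => exact ⟨∅, rfl, fun j => by simp⟩
      | succ m ih =>
        obtain ⟨S, h1, h2⟩ := ih
        obtain ⟨i, hi⟩ := hn (S.sup id)
        have hS : i ∉ S := fun h => hi i (Finset.le_sup (f := id) h) 0 rfl
        refine ⟨insert i S, by rw [Finset.card_insert_of_notMem hS, h1], fun j => ?_⟩
        rw [Finset.coe_insert, injOn_insert hS]
        exact ⟨h2 j, fun ⟨i', h3, h4⟩ => hi i' (Finset.le_sup (f := id) h3) j h4.symm⟩
    obtain ⟨S, h1, h2⟩ := big (k + 1)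
    have ev : ∀ᶠ j in atTop, ∀ i ∈ S, Rn (G j) j x (e i x) :=
      (eventually_all_finset S).2 fun i _ =>
        let ⟨j, hj⟩ := g5 x _ (he1 i x)
        (eventually_ge_atTop j).mono fun m hm => (hj.imp (g1 _ _ hm)).mono hm
    obtain ⟨j, hj⟩ := ev.exists
    obtain ⟨s, s1, s2⟩ := φs j (j + R j) x
    have := Finset.card_le_card_of_injOn (t := s) _
      (fun i hi => s2 _ ((hj i hi).trans (ψR j _))) (h2 (j + 1))
    omega
  have em : ∀ j i, Measurable fun x => ψ j (e i x) := fun j i => (ψm j).comp (he i)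
  obtain ⟨N, Nm, hN⟩ : ∃ N : X → ℕ, Measurable N ∧
      ∀ x i, ∃ i', i' ≤ N x ∧ ∃ j, ψ j (e i x) = ψ j (e i' x) :=
    ⟨fun x => @Nat.find _ (Classical.decPred _) (idx x),
      @meas_find _ _ _ (fun _ => Classical.decPred _) idx fun n => Measurable.forall fun i =>
        Measurable.exists fun i' => measurable_const.and
          (Measurable.exists fun j => Measurable.eq (em j i) (em j i')),
      fun x => @Nat.find_spec _ (Classical.decPred _) (idx x)⟩
  let Φ : ℕ → X → Set X := fun n x => (fun i => ψ n (e i x)) '' Iic (N x)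
  have sub : ∀ n x y, Φ n x ⊆ Φ n y ↔
      ∀ i, i ≤ N x → ∃ i', i' ≤ N y ∧ ψ n (e i' y) = ψ n (e i x) := fun n x y =>
    image_subset_iff
  have self : ∀ n x, ψ n x ∈ Φ n x := fun n x => ⟨0, Nat.zero_le _, congrArg (ψ n) (he0 x)⟩
  have sm : ∀ n, Measurable fun p : X × X => Φ n p.1 ⊆ Φ n p.2 := fun n => by
    simp only [sub]
    exact Measurable.forall fun i => (measurableSet_setOfPred.1 (measurableSet_le measurable_const
      (Nm.comp measurable_fst))).imp (Measurable.exists fun i' =>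
        (measurableSet_setOfPred.1 (measurableSet_le measurable_const
          (Nm.comp measurable_snd))).and
          (Measurable.eq ((em n i').comp measurable_snd) ((em n i).comp measurable_fst)))
  have ev : ∀ x y, E x y → ∀ᶠ n in atTop, Φ n x ⊆ Φ n y := fun x y h => by
    simp only [sub]
    refine (eventually_all_finite (finite_Iic (N x))).2 fun i _ => ?_
    obtain ⟨i', hi'⟩ := he2 y _ (E.trans (E.symm h) (he1 i x))
    obtain ⟨i'', h1, j, h2⟩ := hN y i'
    exact (eventually_ge_atTop j).mono fun m hm => ⟨i'', h1, hi' ▸ (coh j _ _ h2 m hm).symm⟩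
  refine ⟨fun n => Setoid.ker (Φ n), fun n => ?_, monotone_nat_of_le_succ fun n x y h => ?_,
    fun n x => ?_, fun x y => ⟨fun h => ?_, fun ⟨n, h⟩ => ?_⟩⟩
  · simp only [Setoid.ker_def, subset_antisymm_iff]
    exact measurableSet_setOfPred.2 ((sm n).and ((sm n).comp measurable_swap))
  · have : ∀ x, Φ (n + 1) x = φ n (n + R n) '' Φ n x := fun x => by
      simp only [Φ, image_image, ψs]
    rw [Setoid.ker_def] at h ⊢
    rw [this, this, h]
  · refine (((finite_Iic (N x)).image fun i => ψ n (e i x)).biUnion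
      fun z _ => ((g3 n).rn (R n)).finite z).subset fun y hy => ?_
    exact mem_biUnion (show ψ n y ∈ Φ n x from Setoid.ker_def.1 hy ▸ self n y)
      ((ψR n y).symm (g2 n))
  · obtain ⟨n, h1, h2⟩ := ((ev x y h).and (ev y x (E.symm h))).exists
    exact ⟨n, subset_antisymm h1 h2⟩
  · obtain ⟨i, -, hi⟩ := (show ψ n y ∈ Φ n x from Setoid.ker_def.1 h ▸ self n y)
    exact E.trans (E.trans (he1 i x) (RE _ _ _ _ (ψR n _)))
      (E.symm (by rw [show ψ n (e i x) = ψ n y from hi]; exact RE _ _ _ _ (ψR n y)))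

/-- The mass of a set. -/
noncomputable def mass (g : Mean E) (x : X) (A : Set X) : ℝ := ∑' z, A.indicator (g.v x) z

lemma mass_dat (g : Mean E) {T : SimpleGraph X} (ac : T.IsAcyclic)
    (hT : ∀ x y, E x y → T.Reachable x y) {G : X → X → Prop} (sub : ∀ x y, G x y → T.Adj x y)
    (symm : ∀ x y, G x y → G y x) {ε : ℝ} (pos : 0 ≤ ε)
    (lip : ∀ x y, G x y → ‖g.v x - g.v y‖ ≤ ε) : Dat T G (mass g) ε := by
  classical
  have S : ∀ x (A : Set X), Summable (A.indicator (g.v x)) := fun x A =>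
    (g.sum x).summable.indicator A
  have add3 : ∀ x A B C, Disjoint A B → Disjoint A C → Disjoint B C →
      mass g x A + mass g x B + mass g x C ≤ 1 := fun x A B C h1 h2 h3 => by
    refine hasSum_le (fun z => ?_) (((S x A).hasSum.add (S x B).hasSum).add (S x C).hasSum)
      (g.sum x)
    have a1 : z ∈ A → z ∉ B := fun h => Set.disjoint_left.1 h1 h
    have a2 : z ∈ A → z ∉ C := fun h => Set.disjoint_left.1 h2 h
    have a3 : z ∈ B → z ∉ C := fun h => Set.disjoint_left.1 h3 h
    have := g.nonneg x z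
    by_cases hA : z ∈ A <;> by_cases hB : z ∈ B <;> by_cases hC : z ∈ C <;> simp_all
  refine ⟨ac, sub, symm, fun x A B h => ?_, fun x A B h => ?_, add3, fun x A B h => ?_,
    fun x y A h => ?_, pos⟩
  · exact hasSum_le (indicator_le_indicator_of_subset h (g.nonneg x)) (S x A).hasSum (S x B).hasSum
  · simpa [mass] using add3 x A B ∅ h (disjoint_empty _) (disjoint_empty _)
  · refine hasSum_le (fun z => ?_) (g.sum x) ((S x A).hasSum.add (S x B).hasSum)
    have := g.nonneg x z
    by_cases hz : E x z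
    · have := h z (hT x z hz)
      by_cases hA : z ∈ A <;> by_cases hB : z ∈ B <;> simp_all
    · have := g.supp x z hz
      by_cases hA : z ∈ A <;> by_cases hB : z ∈ B <;> simp_all
  · refine le_trans (hasSum_le (fun z => ?_) (S x A).hasSum
      ((S y A).hasSum.add (hasSum_abs (g.v x - g.v y)))) (add_le_add_right (lip x y h) _)
    by_cases hA : z ∈ A
    · simp only [indicator_of_mem hA, lp.coeFn_sub, Pi.sub_apply]
      linarith [le_abs_self (g.v x z - g.v y z)]
    · simp [hA]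

lemma meas_dir [MeasurableEq X] (g : Mean E) {T : SimpleGraph X}
    (mT : Measurable fun p : X × X => T.Adj p.1 p.2) {e : ℕ → X → X} (he : ∀ i, Measurable (e i))
    (he2 : ∀ x y, E x y → ∃ i, e i x = y) (hT : ∀ x y, T.Adj x y → E x y) {G : X → X → Prop}
    (mG : Measurable fun p : X × X => G p.1 p.2) (sub : ∀ x y, G x y → T.Adj x y) :
    Measurable fun p : X × X => Dir T G (mass g) p.1 p.2 := by
  classical
  have m1 : ∀ i, Measurable fun x => mass g x (Side T x (e i x)) := fun i => by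
    refine measurable_tsum_class (E := E)
      (u := fun p : X × X => (Side T p.1 (e i p.1)).indicator (g.v p.1) p.2) he he2 ?_
      fun x z h => by simp [indicator_apply, g.supp x z h]
    simp only [indicator_apply, Side, mem_ofPred_eq, rtg_iff]
    refine Measurable.ite (measurableSet_setOfPred.2 (Measurable.exists fun n => ?_)) g.meas
      measurable_const
    exact (meas_Rn (W := X) (R := fun u a b => T.Adj a b ∧ b ≠ u) he
      ((mT.comp measurable_snd).and (Measurable.eq measurable_snd.snd measurable_fst).not)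
      (fun _ a b h => he2 _ _ (hT _ _ h.1.symm)) n).comp
      (f := fun p : X × X => (p.1, e i p.1, p.2))
      (measurable_fst.prodMk (((he i).comp measurable_fst).prodMk measurable_snd))
  have : (fun p : X × X => Dir T G (mass g) p.1 p.2) = fun p => G p.1 p.2 ∧
      ∃ i, e i p.1 = p.2 ∧ 3 / 5 < mass g p.1 (Side T p.1 (e i p.1)) := by
    ext p
    refine and_congr_right fun h => ⟨fun h' => ?_, fun ⟨i, h1, h2⟩ => h1 ▸ h2⟩
    obtain ⟨i, hi⟩ := he2 _ _ (hT _ _ (sub _ _ h))
    exact ⟨i, hi, by rwa [hi]⟩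
  rw [this]
  exact mG.and (Measurable.exists fun i => (Measurable.eq ((he i).comp measurable_fst)
    measurable_snd).and (measurableSet_setOfPred.1
      (measurableSet_lt measurable_const ((m1 i).comp measurable_fst))))

/-- The theorem for means. -/
theorem hyperfinite_of_means [StandardBorelSpace X] (hE : MeasurableSet {p : X × X | E p.1 p.2})
    (hc : ∀ x, {y | E x y}.Countable) (hT : Treeable E) (g : ℕ → Mean E) {δ : ℕ → ℝ}
    (hδ : Tendsto δ atTop (𝓝 0))
    (hg : ∀ x y, E x y → ∀ᶠ n in atTop, ‖(g n).v x - (g n).v y‖ ≤ δ n) : Hyperfinite E := by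
  obtain ⟨T, mT, ac, hT⟩ := hT
  replace mT := measurableSet_setOfPred.1 mT
  obtain ⟨e', k1, k2, k3⟩ := Pool.Agent.Lib.Helper36.exists_enumeration E hE hc
  obtain ⟨e, he, he0, he1, he2⟩ : ∃ e : ℕ → X → X, (∀ i, Measurable (e i)) ∧ (∀ x, e 0 x = x) ∧
      (∀ i x, E x (e i x)) ∧ ∀ x y, E x y → ∃ i, e i x = y := by
    refine ⟨fun i => Nat.casesOn i id e', fun i => ?_, fun _ => rfl, fun i x => ?_,
      fun x y h => let ⟨i, hi⟩ := k3 x y h; ⟨i + 1, hi⟩⟩
    · cases i
      exacts [measurable_id, k1 _]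
    · cases i
      exacts [E.refl _, k2 _ _]
  let A : ℕ → X → X → Prop := fun j x y =>
    ∃ i, i ≤ j ∧ e i x = y ∧ ∀ n, j ≤ n → ‖(g n).v x - (g n).v (e i x)‖ ≤ δ n
  have mA : ∀ j, Measurable fun p : X × X => A j p.1 p.2 := fun j => Measurable.exists fun i =>
    measurable_const.and ((Measurable.eq ((he i).comp measurable_fst) measurable_snd).and
      (Measurable.forall fun n => measurable_const.imp (measurableSet_setOfPred.1 (measurableSet_le
        ((Mean.measurable_dist he he2 (g n) (he i) (he1 i)).comp measurable_fst)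
        measurable_const))))
  have A1 : ∀ i j, i ≤ j → ∀ x y, A i x y → A j x y := fun i j h x y ⟨k, h1, h2, h3⟩ =>
    ⟨k, h1.trans h, h2, fun n hn => h3 n (h.trans hn)⟩
  have A2 : ∀ x y, E x y → ∀ᶠ j in atTop, A j x y := fun x y h => by
    obtain ⟨i, rfl⟩ := he2 x y h
    obtain ⟨m, hm⟩ := eventually_atTop.1 (hg _ _ h)
    filter_upwards [eventually_ge_atTop i, eventually_ge_atTop m] with j h1 h2
    exact ⟨i, h1, rfl, fun n hn => hm n (h2.trans hn)⟩
  let G : ℕ → X → X → Prop := fun j x y => T.Adj x y ∧ A j x y ∧ A j y x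
  have g1 : ∀ i j, i ≤ j → ∀ x y, G i x y → G j x y := fun i j h x y h' =>
    ⟨h'.1, A1 _ _ h _ _ h'.2.1, A1 _ _ h _ _ h'.2.2⟩
  have g2 : ∀ j x y, G j x y → G j y x := fun j x y h => ⟨h.1.symm, h.2.2, h.2.1⟩
  have g3 : ∀ j, Enum (G j) := fun j => ⟨e '' Iic j, (finite_Iic j).image e,
    fun _ ⟨i, _, h⟩ => h ▸ he i, fun x y ⟨_, ⟨i, h1, h2, _⟩, _⟩ => ⟨e i, ⟨i, h1, rfl⟩, h2⟩⟩
  have aE : ∀ x y, T.Adj x y → E x y := fun x y h => (hT x y).2 h.reachable
  have mG : ∀ j, Measurable fun p : X × X => G j p.1 p.2 := fun j =>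
    mT.and ((mA j).and ((mA j).comp measurable_swap))
  refine hyperfinite_of_scales he he0 he1 he2 g1 g2 g3 (fun j x y h => aE _ _ h.1)
    (fun x y h => ?_) (k := 6) fun j r => ?_
  · rw [hT, SimpleGraph.reachable_iff_reflTransGen] at h
    induction h with
    | refl => exact ⟨0, rfl⟩
    | @tail a b _ hab ih =>
      obtain ⟨j, hj⟩ := ih
      obtain ⟨m, h1, h2, h3⟩ := ((eventually_ge_atTop (j + 1)).and
        ((A2 _ _ (aE _ _ hab)).and (A2 _ _ (aE _ _ hab.symm)))).exists
      exact ⟨m, ((hj.imp (g1 _ _ (by omega))).tail ⟨hab, h2, h3⟩).mono h1⟩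
  · have h1 : Tendsto (fun n => ((4 * r + 3 : ℕ) : ℝ) * |δ n|) atTop (𝓝 0) := by
      simpa using hδ.abs.const_mul ((4 * r + 3 : ℕ) : ℝ)
    obtain ⟨n, h2, h3⟩ := ((eventually_ge_atTop j).and
      (h1.eventually (gt_mem_nhds (show (0 : ℝ) < 1 / 5 by norm_num)))).exists
    refine one_scale (mass_dat (g n) ac (fun x y => (hT x y).1) (fun _ _ h => h.1) (g2 j)
      (abs_nonneg (δ n)) ?_) he (fun x y h => he2 _ _ ((hT x y).2 h)) (mG j)
      (meas_dir (g n) mT he he2 aE (mG j) fun _ _ h => h.1) (g3 j) r h3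
    rintro x y ⟨-, ⟨i, -, rfl, h⟩, -⟩
    exact (h n h2).trans (le_abs_self _)

lemma exists_mean (hE : MeasurableSet {p : X × X | E p.1 p.2})
    {f : {p : X × X // E p.1 p.2} → ℝ} (h1 : Measurable f) (h2 : ∀ p, 0 ≤ f p)
    (h3 : ∀ x, HasSum (fun z : {z // E x z} => f ⟨(x, z.1), z.2⟩) 1) :
    ∃ g : Mean E, ∀ (x y : X) (h : E x y), ‖g.v x - g.v y‖ = ∑' z : {z // E x z},
      |f ⟨(x, z.1), z.2⟩ - f ⟨(y, z.1), E.trans (E.symm h) z.2⟩| := by
  classical
  let u : X → X → ℝ := fun x z => if h : E x z then f ⟨(x, z), h⟩ else 0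
  have hu0 : ∀ x z, 0 ≤ u x z := by
    intro x z
    simp only [u]
    split_ifs
    exacts [h2 _, le_rfl]
  have hus : ∀ x, HasSum (u x) 1 := by
    intro x
    refine (hasSum_subtype_iff_of_support_subset (s := {z | E x z}) ?_).1 ?_
    · intro z hz
      by_contra hn
      exact hz (dif_neg hn)
    · exact (h3 x).congr_fun fun z => dif_pos z.2
  have hmem : ∀ x, Memℓp (u x) 1 := by
    intro x
    apply memℓp_gen
    simpa [abs_of_nonneg (hu0 x _)] using (hus x).summable
  let g : Mean E :=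
    { v := fun x => ⟨u x, hmem x⟩
      meas := Measurable.dite (s := {p : X × X | E p.1 p.2}) h1 measurable_const hE
      nonneg := hu0
      supp := fun x z h => dif_neg h
      sum := hus }
  refine ⟨g, fun x y hxy => ?_⟩
  rw [← g.dist_eq hxy]
  refine tsum_congr fun z => ?_
  have e1 : g.v x z.1 = f ⟨(x, z.1), z.2⟩ := dif_pos z.2
  have e2 : g.v y z.1 = f ⟨(y, z.1), E.trans (E.symm hxy) z.2⟩ :=
    dif_pos (E.trans (E.symm hxy) z.2)
  rw [e1, e2]

theorem hyperfinite_of_rate [StandardBorelSpace X] (hE : MeasurableSet {p : X × X | E p.1 p.2})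
    (hc : ∀ x, {y | E x y}.Countable) (hT : Treeable E) (h : AmenableWithRate E) :
    Hyperfinite E := by
  obtain ⟨f, δ, h1, h2, h3, h4, h5⟩ := h
  choose g hg using fun n => exists_mean hE (h1 n) (h2 n) (h3 n)
  exact hyperfinite_of_means hE hc hT g h4 fun x y h =>
    (h5 x y h).mono fun n hn => (hg n x y h).trans_le hn

end Pool.Agent.P.MP_91e65d_lc.Tr
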