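import Pool.Agent.P.MP_91e65d_lc.Tr.Comb

set_option autoImplicit false

namespace Pool.Agent.P.MP_91e65d_lc.Tr

open Set

variable {X : Type*}

section Label

variable {G : X → X → Prop} {c : X → ℕ} {π : X → X} {ρ : ℕ}

/-- The colour `ρ` steps ahead is maximal among the first `2ρ + 1` colours of the orbit. -/
def LM (c : X → ℕ) (π : X → X) (ρ : ℕ) (x : X) : Prop :=
  ∀ j ≤ 2 * ρ, c (π^[j] x) ≤ c (π^[ρ] x)

lemma exists_LM {N : ℕ} (hc : ∀ x, c x ≤ N) (π : X → X) (ρ : ℕ) (x : X) :
    ∃ t ≤ N * ρ + N * ρ, LM c π ρ (π^[t] x) := by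
  have key : ∀ k p, ρ + k * ρ ≤ p → N ≤ c (π^[p] x) + k → ∃ q, ρ ≤ q ∧ q ≤ p + k * ρ ∧
      ∀ j, q ≤ j + ρ → j ≤ q + ρ → c (π^[j] x) ≤ c (π^[q] x) := by
    intro k
    induction k with
    | zero => exact fun p h1 h2 => ⟨p, by omega, by omega, fun j _ _ => (hc _).trans h2⟩
    | succ k ih =>
      intro p h1 h2
      rw [Nat.succ_mul] at h1 ⊢
      by_cases h : ∀ j, p ≤ j + ρ → j ≤ p + ρ → c (π^[j] x) ≤ c (π^[p] x)
      · exact ⟨p, by omega, by omega, h⟩
      push Not at h
      obtain ⟨j, j1, j2, j3⟩ := h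
      obtain ⟨q, q1, q2, q3⟩ := ih j (by omega) (by omega)
      exact ⟨q, q1, by omega, q3⟩
  obtain ⟨q, q1, q2, q3⟩ := key N (ρ + N * ρ) le_rfl (by omega)
  refine ⟨q - ρ, by omega, fun j hj => ?_⟩
  rw [← Function.iterate_add_apply, ← Function.iterate_add_apply,
    show ρ + (q - ρ) = q by omega]
  exact q3 _ (by omega) (by omega)

lemma lab_two (hπ : ∀ x, π x = x ∨ G x (π x)) (hc : ∀ x y, Rn G ρ x y → c x = c y → x = y)
    {τ : X → ℕ} (t1 : ∀ x, LM c π ρ (π^[τ x] x)) (t2 : ∀ x t, LM c π ρ (π^[t] x) → τ x ≤ t)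
    (w : X) {i : ℕ} (hi : i ≤ ρ) :
    π^[ρ + τ (π^[i] w)] (π^[i] w) = π^[ρ + τ w] w ∨
      π^[ρ + τ (π^[i] w)] (π^[i] w) = π^[ρ + τ (π^[ρ] w)] (π^[ρ] w) := by
  have a1 := t1 (π^[i] w)
  rw [← Function.iterate_add_apply] at a1
  have a2 := t2 w _ a1
  simp only [← Function.iterate_add_apply]
  by_cases h : τ (π^[i] w) + i ≤ ρ
  · refine Or.inl (hc _ _ ?_ (le_antisymm ?_ ?_)).symm
    · have := (Rn.iterate hπ (τ (π^[i] w) + i - τ w) (π^[ρ + τ w] w)).mono
        (show _ ≤ ρ by omega)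
      rwa [← Function.iterate_add_apply,
        show τ (π^[i] w) + i - τ w + (ρ + τ w) = ρ + τ (π^[i] w) + i by omega] at this
    · have := a1 (ρ + τ w - (τ (π^[i] w) + i)) (by omega)
      rwa [← Function.iterate_add_apply, ← Function.iterate_add_apply, ← add_assoc ρ,
        show ρ + τ w - (τ (π^[i] w) + i) + (τ (π^[i] w) + i) = ρ + τ w by omega] at this
    · have := t1 w (ρ + τ (π^[i] w) + i - τ w) (by omega)
      rwa [← Function.iterate_add_apply, ← Function.iterate_add_apply,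
        show ρ + τ (π^[i] w) + i - τ w + τ w = ρ + τ (π^[i] w) + i by omega] at this
  · have b1 := t2 (π^[ρ] w) (τ (π^[i] w) + i - ρ) (by
      rwa [← Function.iterate_add_apply, show τ (π^[i] w) + i - ρ + ρ = τ (π^[i] w) + i by omega])
    have b2 := t2 (π^[i] w) (τ (π^[ρ] w) + ρ - i) (by
      rw [← Function.iterate_add_apply, show τ (π^[ρ] w) + ρ - i + i = τ (π^[ρ] w) + ρ by omega,
        Function.iterate_add_apply]
      exact t1 _)
    exact Or.inr (by rw [show ρ + τ (π^[i] w) + i = ρ + τ (π^[ρ] w) + ρ by omega])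

end Label

variable [MeasurableSpace X]

lemma meas_pick {W Y : Type*} [MeasurableSpace W] [MeasurableSpace Y] {F : ℕ → W → Y}
    (hF : ∀ n, Measurable (F n)) {n : W → ℕ} (hn : Measurable n) :
    Measurable fun x => F (n x) x :=
  (measurable_from_prod_countable_left (f := fun q : W × ℕ => F q.2 q.1) hF).comp
    (measurable_id.prodMk hn)

lemma meas_find {W : Type*} [MeasurableSpace W] {p : W → ℕ → Prop} [∀ x, DecidablePred (p x)]
    (hp : ∀ x, ∃ n, p x n) (hm : ∀ k, Measurable fun x => p x k) :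
    Measurable fun x => Nat.find (hp x) :=
  measurable_find hp fun k => measurableSet_setOfPred.2 (hm k)

lemma meas_ex {W : Type*} [MeasurableSpace W] {e : ℕ → W → X} (he : ∀ i, Measurable (e i))
    {P : W → X → Prop} (hP : Measurable fun p : W × X => P p.1 p.2)
    (hc : ∀ w z, P w z → ∃ i, e i w = z) : Measurable fun w => ∃ z, P w z := by
  have : (fun w => ∃ z, P w z) = fun w => ∃ i, P w (e i w) := by
    ext w
    exact ⟨fun ⟨z, hz⟩ => (hc w z hz).imp fun i hi => by rwa [hi], fun ⟨i, hi⟩ => ⟨_, hi⟩⟩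
  rw [this]
  exact Measurable.exists fun i => hP.comp (measurable_id.prodMk (he i))

lemma exists_sel {e : ℕ → X → X} (he : ∀ i, Measurable (e i)) {P : X → X → Prop}
    (hP : Measurable fun p : X × X => P p.1 p.2) (hc : ∀ x y, P x y → ∃ i, e i x = y)
    (hex : ∀ x, ∃ y, P x y) : ∃ s : X → X, Measurable s ∧ ∀ x, P x (s x) := by
  classical
  have h : ∀ x, ∃ i, P x (e i x) := fun x =>
    let ⟨y, hy⟩ := hex x; (hc x y hy).imp fun i hi => by rwa [hi]
  exact ⟨fun x => e (Nat.find (h x)) x,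
    meas_pick he (meas_find h fun k => hP.comp (measurable_id.prodMk (he k))),
    fun x => Nat.find_spec (h x)⟩

lemma meas_Rn [MeasurableEq X] {W : Type*} [MeasurableSpace W] {e : ℕ → X → X}
    (he : ∀ i, Measurable (e i)) {R : W → X → X → Prop}
    (hR : Measurable fun p : W × X × X => R p.1 p.2.1 p.2.2)
    (hc : ∀ w a b, R w a b → ∃ i, e i b = a) (n : ℕ) :
    Measurable fun p : W × X × X => Rn (R p.1) n p.2.1 p.2.2 := by
  induction n with
  | zero => exact Measurable.eq (by fun_prop) (by fun_prop)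
  | succ n ih =>
    refine ih.or (meas_ex (e := fun i (p : W × X × X) => e i p.2.2)
      (fun i => (he i).comp (f := fun p : W × X × X => p.2.2) measurable_snd.snd)
      (Measurable.and ?_ ?_) fun w z h => hc _ _ _ h.2)
    · exact ih.comp (f := fun q : (W × X × X) × X => (q.1.1, q.1.2.1, q.2)) (by fun_prop)
    · exact hR.comp (f := fun q : (W × X × X) × X => (q.1.1, q.2, q.1.2.2)) (by fun_prop)

lemma meas_Rn' [MeasurableEq X] {e : ℕ → X → X} (he : ∀ i, Measurable (e i)) {R : X → X → Prop}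
    (hR : Measurable fun p : X × X => R p.1 p.2) (hc : ∀ a b, R a b → ∃ i, e i b = a) (n : ℕ) :
    Measurable fun p : X × X => Rn R n p.1 p.2 :=
  (meas_Rn (W := Unit) (R := fun _ => R) he (hR.comp measurable_snd) (fun _ => hc) n).comp
    (f := fun p : X × X => ((), p)) (by fun_prop)

/-- The relation is covered by the graphs of finitely many measurable maps. -/
def Enum (R : X → X → Prop) : Prop :=
  ∃ s : Set (X → X), s.Finite ∧ (∀ e ∈ s, Measurable e) ∧ ∀ x y, R x y → ∃ e ∈ s, e x = y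

lemma Enum.rn {R : X → X → Prop} (h : Enum R) (n : ℕ) : Enum (Rn R n) := by
  induction n with
  | zero => exact ⟨{id}, finite_singleton _, fun e he => he ▸ measurable_id,
      fun x y h => ⟨id, rfl, h⟩⟩
  | succ n ih =>
    obtain ⟨s, s1, s2, s3⟩ := ih
    obtain ⟨t, t1, t2, t3⟩ := h
    refine ⟨s ∪ image2 (· ∘ ·) t s, s1.union (t1.image2 _ s1), ?_, ?_⟩
    · rintro e (he | ⟨a, ha, b, hb, rfl⟩)
      exacts [s2 e he, (t2 a ha).comp (s2 b hb)]
    · rintro x y (h | ⟨z, h, h'⟩)
      · obtain ⟨e, he, h⟩ := s3 x y h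
        exact ⟨e, Or.inl he, h⟩
      · obtain ⟨b, hb, rfl⟩ := s3 x z h
        obtain ⟨a, ha, rfl⟩ := t3 _ y h'
        exact ⟨a ∘ b, Or.inr ⟨a, ha, b, hb, rfl⟩, rfl⟩

lemma Enum.finite {R : X → X → Prop} (h : Enum R) (x : X) : {y | R x y}.Finite := by
  obtain ⟨s, s1, -, s3⟩ := h
  exact (s1.image fun e : X → X => e x).subset fun y hy => s3 x y hy

/-- A Borel graph of bounded degree has a Borel colouring with finitely many colours. -/
lemma Enum.colour [StandardBorelSpace X] {R : X → X → Prop} (h : Enum R)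
    (hR : ∀ x y, R x y → R y x) :
    ∃ (c : X → ℕ) (N : ℕ), Measurable c ∧ (∀ x, c x ≤ N) ∧ ∀ x y, R x y → c x = c y → x = y := by
  classical
  obtain ⟨s, s1, s2, s3⟩ := h
  lift s to Finset (X → X) using s1
  have := s.finite_toSet.countable.to_subtype
  obtain ⟨j, j1, j2⟩ := MeasurableSpace.measurable_injection_nat_bool_of_countablySeparated X
  have jm : ∀ i, Measurable fun x => j x i := fun i => (measurable_pi_apply i).comp j1
  have hn : ∀ x, ∃ n, ∀ e : s, e.1 x = x ∨ ∃ i, i < n ∧ ¬ j (e.1 x) i = j x i := fun x => by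
    have : ∀ e : s, ∃ m, e.1 x = x ∨ ¬ j (e.1 x) m = j x m := fun e => by
      by_cases h : e.1 x = x
      · exact ⟨0, Or.inl h⟩
      · exact (Function.ne_iff.1 (j2.ne h)).imp fun _ => Or.inr
    choose m hm using this
    obtain ⟨b, hb⟩ := (Set.finite_range m).bddAbove
    exact ⟨b + 1, fun e => (hm e).imp_right fun h => ⟨m e, Nat.lt_succ_of_le (hb ⟨e, rfl⟩), h⟩⟩
  have nm : Measurable fun x => Nat.find (hn x) := meas_find hn fun k =>
    Measurable.forall fun e => (Measurable.eq (s2 _ e.2) measurable_id).or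
      (Measurable.exists fun i => measurable_const.and
        (Measurable.eq ((jm i).comp (s2 _ e.2)) (jm i)).not)
  choose enc henc using fun n => exists_injective_nat (Fin n → Bool)
  let F : ℕ → X → ℕ := fun n x => Nat.pair n (enc n fun i => j x i)
  have Fm : ∀ n, Measurable (F n) := fun n =>
    (Measurable.of_discrete (f := fun v : Fin n → Bool => Nat.pair n (enc n v))).comp
      (measurable_pi_lambda _ fun i => jm i)
  let c0 : X → ℕ := fun x => F (Nat.find (hn x)) x
  have c0m : Measurable c0 := meas_pick Fm nm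
  have c0p : ∀ x y, R x y → c0 x = c0 y → x = y := fun x y hxy hc => by
    obtain ⟨e, he, rfl⟩ := s3 x y hxy
    have h1 : Nat.find (hn x) = Nat.find (hn (e x)) := (Nat.pair_eq_pair.1 hc).1
    simp only [c0] at hc
    rw [← h1] at hc
    rcases Nat.find_spec (hn x) ⟨e, he⟩ with h | ⟨i, hi, h⟩
    · exact h.symm
    · exact absurd (congrFun (henc _ (Nat.pair_eq_pair.1 hc).2) ⟨i, hi⟩).symm h
  have mex : ∀ g : {g : X → ℕ // Measurable g}, ∃ g' : {g : X → ℕ // Measurable g},
      ∀ x, g'.1 x ≤ s.card ∧ ∀ e : s, ¬ g.1 (e.1 x) = g'.1 x := fun g => by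
    have h : ∀ x, ∃ k, k ≤ s.card ∧ ∀ e : s, ¬ g.1 (e.1 x) = k := fun x => by
      obtain ⟨k, k1, k2⟩ := Finset.exists_mem_notMem_of_card_lt_card
        (s := s.image fun e => g.1 (e x)) (t := Finset.range (s.card + 1))
        (by simpa using Nat.lt_succ_of_le Finset.card_image_le)
      exact ⟨k, Nat.le_of_lt_succ (Finset.mem_range.1 k1),
        fun e h => k2 (Finset.mem_image.2 ⟨e.1, e.2, h⟩)⟩
    exact ⟨⟨fun x => Nat.find (h x), meas_find h fun k => measurable_const.and
      (Measurable.forall fun e => (Measurable.eq (g.2.comp (s2 _ e.2)) measurable_const).not)⟩,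
      fun x => Nat.find_spec (h x)⟩
  choose M hM using mex
  let C : ℕ → {g : X → ℕ // Measurable g} := fun n => Nat.rec ⟨fun _ => 0, measurable_const⟩
    (fun n g => ⟨fun x => if c0 x = n then (M g).1 x else g.1 x,
      Measurable.ite (c0m (measurableSet_singleton n)) (M g).2 g.2⟩) n
  have C1 : ∀ x, (C (c0 x + 1)).1 x = (M (C (c0 x))).1 x := fun x => if_pos rfl
  have C2 : ∀ x m, c0 x + 1 ≤ m → (C m).1 x = (C (c0 x + 1)).1 x := fun x m hm => by
    induction hm with
    | refl => rfl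
    | @step m hm ih => exact (if_neg (Nat.lt_of_succ_le hm).ne).trans ih
  have C3 : ∀ x y, R x y → c0 y < c0 x → (C (c0 x + 1)).1 x ≠ (C (c0 y + 1)).1 y :=
    fun x y hxy hlt h => by
      obtain ⟨e, he, rfl⟩ := s3 x y hxy
      rw [C1, ← C2 _ _ hlt] at h
      exact (hM _ x).2 ⟨e, he⟩ h.symm
  refine ⟨fun x => (C (c0 x + 1)).1 x, s.card,
    meas_pick (F := fun n => (C (n + 1)).1) (fun n => (C (n + 1)).2) c0m,
    fun x => (C1 x).trans_le (hM _ x).1, fun x y hxy h => ?_⟩
  rcases lt_trichotomy (c0 x) (c0 y) with h' | h' | h'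
  · exact absurd h.symm (C3 y x (hR _ _ hxy) h')
  · exact c0p x y hxy h'
  · exact absurd h (C3 x y hxy h')

variable {T : SimpleGraph X} {G : X → X → Prop} {μ : X → Set X → ℝ} {ε : ℝ}

lemma exists_flow [MeasurableEq X] (d : Dat T G μ ε) {e : ℕ → X → X} (he : ∀ i, Measurable (e i))
    (hcov : ∀ x y, T.Reachable x y → ∃ i, e i x = y)
    (mG : Measurable fun p : X × X => G p.1 p.2)
    (mD : Measurable fun p : X × X => Dir T G μ p.1 p.2)
    {c : X → ℕ} {N : ℕ} (cm : Measurable c) (hc : ∀ x, c x ≤ N) (L : ℕ) :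
    ∃ (h : X → ℕ) (π : X → X), Measurable π ∧ Flow T G μ c L h π := by
  classical
  have mB : Measurable fun p : X × X => Bal T G μ p.1 p.2 :=
    mG.and (mD.not.and (mD.comp measurable_swap).not)
  have reach : ∀ n x y, Rn (Bal T G μ) n x y → T.Reachable x y := fun n x y h =>
    (SimpleGraph.reachable_iff_reflTransGen x y).2
      (rtg_iff.2 ⟨n, h.imp fun _ _ h => d.sub _ _ h.1⟩)
  have mR := meas_Rn' he mB fun a b h => hcov _ _ (d.sub _ _ h.1).reachable.symm
  have mE : Measurable fun x => ∃ z, Dir T G μ x z :=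
    meas_ex he mD fun x z h => hcov _ _ (d.sub _ _ h.1).reachable
  have mM : Measurable fun x => Mk T G μ c L x := by
    refine Measurable.and ?_ (meas_ex he ((mR L).and (mE.comp measurable_snd))
      fun x z h => hcov _ _ (reach _ _ _ h.1)).not
    have : (fun x => ∀ y, Rn (Bal T G μ) L x y → c y ≤ c x) =
        fun x => ¬ ∃ y, Rn (Bal T G μ) L x y ∧ c x < c y := by
      ext x; push Not; rfl
    rw [this]
    exact (meas_ex he ((mR L).and (measurableSet_setOfPred.1
      (measurableSet_lt (cm.comp measurable_fst) (cm.comp measurable_snd))))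
      fun x z h => hcov _ _ (reach _ _ _ h.1)).not
  have mT : Measurable fun x => Tg T G μ c L x := mE.or mM
  have ex := exists_tg hc d L
  let h : X → ℕ := fun x => Nat.find (ex x)
  have hm : Measurable h := meas_find ex fun k => meas_ex he
    (((mR k).comp measurable_swap).and (mT.comp measurable_snd))
    fun x z h => hcov _ _ (reach _ _ _ h.1).symm
  have h0 : ∀ x z, Dir T G μ x z → h x = 0 := fun x z hz =>
    Nat.le_zero.1 (Nat.find_min' (ex x) ⟨x, rfl, Or.inl ⟨z, hz⟩⟩)
  have hl : ∀ x y, Bal T G μ x y → h y ≤ h x + 1 := fun x y hxy =>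
    let ⟨z, h1, h2⟩ := Nat.find_spec (ex x); Nat.find_min' (ex y) ⟨z, h1.tail hxy, h2⟩
  obtain ⟨π, πm, hπ⟩ := exists_sel he (P := fun x y => Dir T G μ x y ∨
      ((¬ ∃ z, Dir T G μ x z) ∧ h x = 0 ∧ y = x) ∨ (Bal T G μ x y ∧ h y + 1 = h x))
    (mD.or (((mE.comp measurable_fst).not.and ((Measurable.eq (hm.comp measurable_fst)
      measurable_const).and (Measurable.eq measurable_snd measurable_fst))).or
      (mB.and (Measurable.eq ((hm.comp measurable_snd).add_const 1) (hm.comp measurable_fst)))))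
    (by
      rintro x y (h1 | ⟨-, -, rfl⟩ | ⟨h1, -⟩)
      exacts [hcov _ _ (d.sub _ _ h1.1).reachable, hcov _ _ (.refl _),
        hcov _ _ (d.sub _ _ h1.1).reachable])
    (fun x => by
      by_cases h1 : ∃ z, Dir T G μ x z
      · exact h1.imp fun _ => Or.inl
      rcases hx : h x with _ | n
      · exact ⟨x, Or.inr (Or.inl ⟨h1, rfl, rfl⟩)⟩
      obtain ⟨y, y1, y2⟩ := Nat.find_spec (ex x)
      rw [show Nat.find (ex x) = n + 1 from hx] at y1
      rcases y1 with y1 | ⟨z, z1, z2⟩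
      · have : h x ≤ n := Nat.find_min' (ex x) ⟨y, y1, y2⟩
        omega
      · have : h z ≤ n := Nat.find_min' (ex z) ⟨y, z1, y2⟩
        have := hl z x z2
        exact ⟨z, Or.inr (Or.inr ⟨d.bal_symm _ _ z2, by omega⟩)⟩)
  refine ⟨h, π, πm, fun x hx => ?_, hl, fun x n hx => ?_, fun x y hxy => ?_, fun x => ?_⟩
  · obtain ⟨y, y1, y2⟩ := Nat.find_spec (ex x)
    rw [show Nat.find (ex x) = 0 from hx] at y1
    exact (show y = x from y1) ▸ y2
  · rcases hπ x with h1 | ⟨-, h1, -⟩ | ⟨h1, h2⟩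
    · have := h0 x _ h1
      omega
    · omega
    · exact ⟨h1, by omega⟩
  · rcases hπ x with h1 | ⟨h1, -⟩ | ⟨-, h2⟩
    · exact d.dir_unique h1 hxy
    · exact absurd ⟨y, hxy⟩ h1
    · have := h0 x y hxy
      omega
  · rcases hπ x with h1 | ⟨-, -, h1⟩ | ⟨h1, -⟩
    exacts [Or.inr h1.1, Or.inl h1, Or.inr h1.1]

/-- One scale: a Borel map of bounded displacement with at most six values on each `r`-ball. -/
theorem one_scale [StandardBorelSpace X] (d : Dat T G μ ε) {e : ℕ → X → X}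
    (he : ∀ i, Measurable (e i)) (hcov : ∀ x y, T.Reachable x y → ∃ i, e i x = y)
    (mG : Measurable fun p : X × X => G p.1 p.2)
    (mD : Measurable fun p : X × X => Dir T G μ p.1 p.2) (hG : Enum G) (r : ℕ)
    (hε : ((4 * r + 3 : ℕ) : ℝ) * ε < 1 / 5) :
    ∃ (φ : X → X) (D : ℕ), Measurable φ ∧ (∀ x, Rn G D x (φ x)) ∧
      ∀ x, ∃ s : Finset X, s.card ≤ 6 ∧ ∀ y, Rn G r x y → φ y ∈ s := by
  classical
  obtain ⟨c, N, cm, cN, hc⟩ := (hG.rn (4 * r + 3)).colour fun _ _ h => h.symm d.symm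
  obtain ⟨h, π, πm, f⟩ := exists_flow d he hcov mG mD cm cN (4 * r + 3)
  have ex : ∀ x, ∃ t, LM c π (2 * r) (π^[t] x) := fun x =>
    (exists_LM cN π (2 * r) x).imp fun _ h => h.2
  let τ : X → ℕ := fun x => Nat.find (ex x)
  have τm : Measurable τ := meas_find ex fun k => Measurable.forall fun j =>
    measurable_const.imp (measurableSet_setOfPred.1 (measurableSet_le
      (cm.comp ((πm.iterate j).comp (πm.iterate k)))
      (cm.comp ((πm.iterate _).comp (πm.iterate k)))))
  let lab : X → X := fun x => π^[2 * r + τ x] x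
  have lm : Measurable lab :=
    meas_pick (F := fun n x => π^[2 * r + n] x) (fun n => πm.iterate _) τm
  refine ⟨fun y => lab (π^[r] y), r + (2 * r + (N * (2 * r) + N * (2 * r))),
    lm.comp (πm.iterate r), fun x => (Rn.iterate f.nb r x).trans ((Rn.iterate f.nb _ _).mono ?_),
    fun x => ?_⟩
  · obtain ⟨t, t1, t2⟩ := exists_LM cN π (2 * r) (π^[r] x)
    exact Nat.add_le_add_left ((Nat.find_min' (ex _) t2).trans t1) _
  obtain ⟨a, b, hab⟩ := f.roots d hε le_rfl hc x
  have key : ∀ y w, Meet π r y w → lab (π^[r] y) = lab w ∨ lab (π^[r] y) = lab (π^[2 * r] w) := by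
    rintro y w ⟨s, hs, t, ht, hst⟩
    have : π^[r] y = π^[r - s + t] w := by
      rw [Function.iterate_add_apply, ← hst, ← Function.iterate_add_apply,
        Nat.sub_add_cancel hs]
    rw [this]
    exact lab_two f.nb (fun x y h => hc x y (h.mono (by omega))) (fun x => Nat.find_spec (ex x))
      (fun x t h => Nat.find_min' (ex x) h) w (by omega)
  refine ⟨{lab x, lab (π^[2 * r] x), lab a, lab (π^[2 * r] a), lab b, lab (π^[2 * r] b)},
    Finset.card_le_six, fun y hy => ?_⟩
  simp only [Finset.mem_insert, Finset.mem_singleton]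
  rcases hab y hy with h | h | h <;> rcases key _ _ h with h | h <;> simp only [h, true_or, or_true]

end Pool.Agent.P.MP_91e65d_lc.Tr
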