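import Pool.Agent.P.MP_91e65d_lc.Tr.Main

set_option autoImplicit false

namespace Pool.Agent.P.MP_91e65d_lc.Tr

open Set Filter Topology

/-- Sanity check: orbit relations of Borel actions of countable amenable groups (Folner
condition) are amenable with a rate. -/
theorem amenableWithRate_of_folner {Γ X : Type*} [Group Γ] [DecidableEq Γ] [MeasurableSpace X]
    [MeasurableEq X] [MulAction Γ X] (hm : ∀ γ : Γ, Measurable fun x : X => γ • x)
    (F : ℕ → Finset Γ) (hF : ∀ n, (F n).Nonempty) (δ : ℕ → ℝ) (hδ : Tendsto δ atTop (𝓝 0))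
    (hFol : ∀ γ : Γ, ∀ᶠ n in atTop,
      ((symmDiff (F n) ((F n).image (· * γ))).card : ℝ) ≤ δ n * (F n).card)
    (E : Setoid X) (hE : ∀ x y, E x y ↔ ∃ γ : Γ, γ • x = y) : AmenableWithRate E := by
  classical
  let u : Finset Γ → X → X → ℝ := fun s x z => ∑ g ∈ s, if g • x = z then 1 else 0
  have hu : ∀ (s : Finset Γ) (x : X), HasSum (fun z : {z // E x z} => u s x z.1) s.card :=
    fun s x => by
      have := hasSum_sum (s := s) fun g _ =>
        hasSum_ite_eq (⟨g • x, (hE _ _).2 ⟨g, rfl⟩⟩ : {z // E x z}) (1 : ℝ)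
      simpa [u, Subtype.ext_iff, eq_comm] using this
  have pos : ∀ n, (0 : ℝ) < (F n).card := fun n => by exact_mod_cast (hF n).card_pos
  refine ⟨fun n p => ((F n).card : ℝ)⁻¹ * u (F n) p.1.1 p.1.2, δ, fun n => ?_, fun n p => ?_,
    fun n x => ?_, hδ, fun x y h => ?_⟩
  · refine Measurable.const_mul (Finset.measurable_sum _ fun g _ => Measurable.ite ?_
      measurable_const measurable_const) _
    exact measurableSet_eq_fun ((hm g).comp measurable_subtype_coe.fst) measurable_subtype_coe.snd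
  · exact mul_nonneg (inv_nonneg.2 (pos n).le) (Finset.sum_nonneg fun _ _ => by positivity)
  · simpa [inv_mul_cancel₀ (pos n).ne'] using (hu (F n) x).mul_left ((F n).card : ℝ)⁻¹
  obtain ⟨γ, rfl⟩ := (hE _ _).1 h
  filter_upwards [hFol γ] with n hn
  have e : ∀ z, u (F n) (γ • x) z = u ((F n).image (· * γ)) x z := fun z => by
    simp only [u]
    rw [Finset.sum_image fun _ _ _ _ h => mul_right_cancel h]
    simp only [mul_smul]
  have key : ∀ (s t : Finset Γ) z, |u s x z - u t x z| ≤ u (symmDiff s t) x z := fun s t z => by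
    have h0 : ∀ s, 0 ≤ u s x z := fun s => Finset.sum_nonneg fun _ _ => by positivity
    have h1 : u (symmDiff s t) x z = u (s \ t) x z + u (t \ s) x z :=
      Finset.sum_union disjoint_sdiff_sdiff
    have h2 : u s x z - u t x z = u (s \ t) x z - u (t \ s) x z :=
      Finset.sum_sdiff_sub_sum_sdiff.symm
    rw [h1, h2, abs_le]
    constructor <;> linarith [h0 (s \ t), h0 (t \ s)]
  have hs := (hu (symmDiff (F n) ((F n).image (· * γ))) x).mul_left ((F n).card : ℝ)⁻¹
  refine (Real.tsum_le_of_sum_le (fun _ => abs_nonneg _) fun s => le_trans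
    (Finset.sum_le_sum fun z _ => ?_) (sum_le_hasSum s (fun z _ => mul_nonneg
      (inv_nonneg.2 (pos n).le) (Finset.sum_nonneg fun _ _ => by positivity)) hs)).trans ?_
  · rw [← mul_sub, abs_mul, abs_of_pos (inv_pos.2 (pos n)), e]
    exact mul_le_mul_of_nonneg_left (key _ _ _) (inv_nonneg.2 (pos n).le)
  · rwa [inv_mul_le_iff₀ (pos n), mul_comm]

end Pool.Agent.P.MP_91e65d_lc.Tr
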